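import Pool.Agent.TH584.AS.Bodies

set_option autoImplicit false

open MeasureTheory Measure
open scoped ENNReal Pointwise

namespace Pool.Agent.Results.MP_8228af_gt.OctahedronComparison

open Pool.Agent.TH584.AS

theorem measure_frontier_image (A : E3 ≃ᵃ[ℝ] E3) (C : Set E3) :
    frontier (A '' C) = A '' frontier C := by
  have h := (A.toHomeomorphOfFiniteDimensional).image_frontier C
  simpa using h.symm

theorem measurable_image (A : E3 ≃ᵃ[ℝ] E3) (C : Set E3) (h : MeasurableSet C) :
    MeasurableSet (A '' C) := by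
  have h := (A.toHomeomorphOfFiniteDimensional).measurableEmbedding.measurableSet_image.2 h
  simpa using h

theorem upper (A : E3 ≃ᵃ[ℝ] E3) : (μH[2] : Measure E3) (frontier (A '' TOct))
    ≤ ∑ σ : Bool × Bool × Bool, ENNReal.ofReal (G A σ) * (94 * tau)
      + ∑ _b : Bool, (ENNReal.ofReal ‖cr (A.linear (e 1)) (A.linear (e 2))‖ * (100 * tau)
        + (ENNReal.ofReal ‖cr (A.linear (e 2)) (A.linear (e 0))‖ * (100 * tau)
          + ENNReal.ofReal ‖cr (A.linear (e 0)) (A.linear (e 1))‖ * (100 * tau))) := by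
  rw [measure_frontier_image]
  have ind : ∀ i j : Fin 3, i ≠ j → LinearIndependent ℝ ![e i, e j] := by
    intro i j hij
    rw [LinearIndependent.pair_iff]
    intro s t h
    have h1 := congrArg (fun x : E3 => x i) h
    have h2 := congrArg (fun x : E3 => x j) h
    simp [e, hij, hij.symm] at h1 h2
    exact ⟨h1, h2⟩
  calc (μH[2] : Measure E3) (A '' frontier TOct)
      ≤ (μH[2] : Measure E3) ((⋃ σ : Bool × Bool × Bool, A '' F 13 σ Hx)
          ∪ (⋃ b : Bool, (A '' Q0 b ∪ (A '' Q1 b ∪ A '' Q2 b)))) := by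
        apply measure_mono
        refine (Set.image_mono frontier_TOct).trans ?_
        rw [Set.image_union, Set.image_iUnion, Set.image_iUnion]
        simp only [Set.image_union]
        exact subset_rfl
    _ ≤ (μH[2] : Measure E3) (⋃ σ : Bool × Bool × Bool, A '' F 13 σ Hx)
        + (μH[2] : Measure E3) (⋃ b : Bool, (A '' Q0 b ∪ (A '' Q1 b ∪ A '' Q2 b))) :=
        measure_union_le _ _
    _ ≤ _ := by
        refine add_le_add ?_ ?_
        · refine (measure_iUnion_fintype_le _ _).trans ?_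
          refine Finset.sum_le_sum fun σ _ => ?_
          rw [F, face_measure A _ _ _ (indep_tri σ), cr_tri]
          exact mul_le_mul_right measure_Hx _
        · refine (measure_iUnion_fintype_le _ _).trans ?_
          refine Finset.sum_le_sum fun b _ => ?_
          refine (measure_union_le _ _).trans ?_
          refine add_le_add ?_ ((measure_union_le _ _).trans (add_le_add ?_ ?_))
          · rw [Q0, face_measure A _ _ _ (ind 1 2 (by decide))]
            exact mul_le_mul_right measure_Sq _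
          · rw [Q1, face_measure A _ _ _ (ind 2 0 (by decide))]
            exact mul_le_mul_right measure_Sq _
          · rw [Q2, face_measure A _ _ _ (ind 0 1 (by decide))]
            exact mul_le_mul_right measure_Sq _

theorem lower (A : E3 ≃ᵃ[ℝ] E3) :
    ∑ σ : Bool × Bool × Bool, ENNReal.ofReal (G A σ) * (144 * tau)
      ≤ (μH[2] : Measure E3) (frontier (A '' Oct 12)) := by
  rw [measure_frontier_image]
  calc ∑ σ : Bool × Bool × Bool, ENNReal.ofReal (G A σ) * (144 * tau)
      = ∑ σ : Bool × Bool × Bool, (μH[2] : Measure E3) (A '' F 12 σ (To 12)) := by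
        refine Finset.sum_congr rfl fun σ _ => ?_
        rw [F, face_measure A _ _ _ (indep_tri σ), cr_tri, measure_To (by norm_num)]
        congr 2
        rw [show ((12 : ℝ) ^ 2) = ((144 : ℕ) : ℝ) by norm_num, ENNReal.ofReal_natCast]
        rfl
    _ = (μH[2] : Measure E3) (⋃ σ : Bool × Bool × Bool, A '' F 12 σ (To 12)) := by
        rw [measure_iUnion, tsum_fintype]
        · intro σ τ hστ
          exact (Set.disjoint_image_iff A.injective).mpr (disjoint_F σ τ hστ)
        · intro σ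
          exact measurable_image A _ (measurable_F σ)
    _ ≤ (μH[2] : Measure E3) (A '' frontier (Oct 12)) := by
        apply measure_mono
        rw [← Set.image_iUnion]
        exact Set.image_mono (Set.iUnion_subset face_sub_frontier)

theorem domination (A : E3 ≃ᵃ[ℝ] E3) :
    (μH[2] : Measure E3) (frontier (A '' TOct)) ≤ (μH[2] : Measure E3) (frontier (A '' Oct 12)) := by
  refine (upper A).trans (le_trans ?_ (lower A))
  have hG : ∀ σ, 0 ≤ G A σ := fun σ => norm_nonneg _
  have hs := sum_G A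
  have e1 : ∑ σ : Bool × Bool × Bool, ENNReal.ofReal (G A σ) * (94 * tau)
      = ENNReal.ofReal (94 * ∑ σ : Bool × Bool × Bool, G A σ) * tau := by
    rw [← Finset.sum_mul, ← ENNReal.ofReal_sum_of_nonneg (fun σ _ => hG σ),
      ENNReal.ofReal_mul (by norm_num), ← mul_assoc, mul_comm (ENNReal.ofReal _) (94 : ℝ≥0∞)]
    congr 2
    norm_num
  have e2 : ∑ σ : Bool × Bool × Bool, ENNReal.ofReal (G A σ) * (144 * tau)
      = ENNReal.ofReal (144 * ∑ σ : Bool × Bool × Bool, G A σ) * tau := by
    rw [← Finset.sum_mul, ← ENNReal.ofReal_sum_of_nonneg (fun σ _ => hG σ),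
      ENNReal.ofReal_mul (by norm_num), ← mul_assoc, mul_comm (ENNReal.ofReal _) (144 : ℝ≥0∞)]
    congr 2
    norm_num
  rw [e1, e2]
  generalize hx : ‖cr (A.linear (e 1)) (A.linear (e 2))‖ = x at *
  generalize hy : ‖cr (A.linear (e 2)) (A.linear (e 0))‖ = y at *
  generalize hz : ‖cr (A.linear (e 0)) (A.linear (e 1))‖ = z at *
  have hx0 : 0 ≤ x := hx ▸ norm_nonneg _
  have hy0 : 0 ≤ y := hy ▸ norm_nonneg _
  have hz0 : 0 ≤ z := hz ▸ norm_nonneg _
  have e3 : ∑ _b : Bool, (ENNReal.ofReal x * (100 * tau)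
        + (ENNReal.ofReal y * (100 * tau) + ENNReal.ofReal z * (100 * tau)))
      = ENNReal.ofReal (200 * (x + y + z)) * tau := by
    rw [Fintype.sum_bool, ENNReal.ofReal_mul (by norm_num), ENNReal.ofReal_add (by positivity) hz0,
      ENNReal.ofReal_add hx0 hy0]
    have : ENNReal.ofReal 200 = 200 := by norm_num
    rw [this]
    ring
  rw [e3, ← add_mul, ← ENNReal.ofReal_add]
  · refine mul_le_mul_left ?_ _
    apply ENNReal.ofReal_le_ofReal
    linarith
  · exact mul_nonneg (by norm_num) (Finset.sum_nonneg fun σ _ => hG σ)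
  · positivity

theorem Oct_smul {s : ℝ} (hs : 0 < s) : Oct s = s • Oct 1 := by
  ext p
  rw [Set.mem_smul_set_iff_inv_smul_mem₀ hs.ne']
  show |p 0| + |p 1| + |p 2| ≤ s ↔ |(s⁻¹ • p) 0| + |(s⁻¹ • p) 1| + |(s⁻¹ • p) 2| ≤ 1
  simp only [PiLp.smul_apply, smul_eq_mul, abs_mul, abs_inv, abs_of_pos hs]
  rw [← mul_add, ← mul_add, inv_mul_le_iff₀ hs, mul_one]

theorem vol_Oct {s : ℝ} (hs : 0 < s) :
    (volume : Measure E3) (Oct s) = ENNReal.ofReal (s ^ 3) * volume (Oct 1) := by
  rw [Oct_smul hs, addHaar_smul]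
  congr 2
  simp [abs_of_pos hs]

/-- pair of opposite cut off corners -/
theorem corner (i j k : Fin 3) (hj : j ≠ i) (hk : k ≠ i) :
    (volume : Measure E3) {x : E3 | |x i| + |x j| + |x k| ≤ 13 ∧ 8 < |x i|}
      ≤ volume {x : E3 | |x i| + |x j| + |x k| ≤ 5} := by
  have h1 : {x : E3 | |x i| + |x j| + |x k| ≤ 13 ∧ 8 < |x i|} ⊆
      ((fun x => -((8 : ℝ) • e i) + x) ⁻¹' {x : E3 | |x i| + |x j| + |x k| ≤ 5 ∧ 0 < x i}) ∪
      ((fun x => ((8 : ℝ) • e i) + x) ⁻¹' {x : E3 | |x i| + |x j| + |x k| ≤ 5 ∧ x i < 0}) := by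
    rintro x ⟨h, h8⟩
    rcases le_total 0 (x i) with hx | hx
    · left
      rw [abs_of_nonneg hx] at h h8
      show |(-((8 : ℝ) • e i) + x) i| + |(-((8 : ℝ) • e i) + x) j| + |(-((8 : ℝ) • e i) + x) k| ≤ 5
        ∧ 0 < (-((8 : ℝ) • e i) + x) i
      simp only [PiLp.add_apply, PiLp.neg_apply, PiLp.smul_apply, e, EuclideanSpace.single_apply,
        if_pos, if_neg hj, if_neg hk, smul_eq_mul, mul_one, mul_zero, neg_zero, zero_add]
      rw [abs_of_pos (by linarith : 0 < -8 + x i)]
      constructor <;> linarith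
    · right
      rw [abs_of_nonpos hx] at h h8
      show |(((8 : ℝ) • e i) + x) i| + |(((8 : ℝ) • e i) + x) j| + |(((8 : ℝ) • e i) + x) k| ≤ 5
        ∧ (((8 : ℝ) • e i) + x) i < 0
      simp only [PiLp.add_apply, PiLp.smul_apply, e, EuclideanSpace.single_apply,
        if_pos, if_neg hj, if_neg hk, smul_eq_mul, mul_one, mul_zero, zero_add]
      rw [abs_of_neg (by linarith : 8 + x i < 0)]
      constructor <;> linarith
  refine (measure_mono h1).trans ((measure_union_le _ _).trans ?_)
  rw [measure_preimage_add, measure_preimage_add]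
  rw [← measure_union]
  · apply measure_mono
    rintro x (⟨h, _⟩ | ⟨h, _⟩) <;> exact h
  · rw [Set.disjoint_left]
    rintro x ⟨_, h⟩ ⟨_, h'⟩
    exact absurd h (not_lt.mpr (le_of_lt h'))
  · have h2 : {x : E3 | |x i| + |x j| + |x k| ≤ 5 ∧ x i < 0}
        = {x : E3 | |x i| + |x j| + |x k| ≤ 5} ∩ {x : E3 | x i < 0} := by
      ext x; exact Iff.rfl
    rw [h2]
    exact (isClosed_le (by fun_prop) continuous_const).measurableSet.inter
      (isOpen_lt (by fun_prop) continuous_const).measurableSet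

theorem volumes : (volume : Measure E3) (Oct 12) < volume TOct := by
  have hfin : (volume : Measure E3) (Oct 1) ≠ ∞ := (isCompact_Oct 1).measure_lt_top.ne
  have hpos : 0 < (volume : Measure E3) (Oct 1) := by
    refine lt_of_lt_of_le ((isOpen_octI 1).measure_pos volume ⟨0, by simp⟩) (measure_mono ?_)
    intro x hx
    have hx' : |x 0| + |x 1| + |x 2| < 1 := hx
    exact le_of_lt hx'
  have h13 : (volume : Measure E3) (Oct 13) ≤ volume TOct + 3 * volume (Oct 5) := by
    have hsub : Oct 13 ⊆ TOct ∪ ({x : E3 | |x 0| + |x 1| + |x 2| ≤ 13 ∧ 8 < |x 0|} ∪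
        ({x : E3 | |x 1| + |x 2| + |x 0| ≤ 13 ∧ 8 < |x 1|} ∪
          {x : E3 | |x 2| + |x 0| + |x 1| ≤ 13 ∧ 8 < |x 2|})) := by
      intro x hx
      have hx' : |x 0| + |x 1| + |x 2| ≤ 13 := hx
      by_cases h0 : 8 < |x 0|
      · exact Or.inr (Or.inl ⟨hx', h0⟩)
      · by_cases h1 : 8 < |x 1|
        · exact Or.inr (Or.inr (Or.inl ⟨by linarith, h1⟩))
        · by_cases h2 : 8 < |x 2|
          · exact Or.inr (Or.inr (Or.inr ⟨by linarith, h2⟩))
          · exact Or.inl ⟨hx', not_lt.mp h0, not_lt.mp h1, not_lt.mp h2⟩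
    have e0 : {x : E3 | |x 0| + |x 1| + |x 2| ≤ 5} = Oct 5 := rfl
    have e1 : {x : E3 | |x 1| + |x 2| + |x 0| ≤ 5} = Oct 5 := by
      ext x
      show |x 1| + |x 2| + |x 0| ≤ 5 ↔ |x 0| + |x 1| + |x 2| ≤ 5
      constructor <;> intro h <;> linarith
    have e2 : {x : E3 | |x 2| + |x 0| + |x 1| ≤ 5} = Oct 5 := by
      ext x
      show |x 2| + |x 0| + |x 1| ≤ 5 ↔ |x 0| + |x 1| + |x 2| ≤ 5
      constructor <;> intro h <;> linarith
    have c0 := corner 0 1 2 (by decide) (by decide)
    have c1 := corner 1 2 0 (by decide) (by decide)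
    have c2 := corner 2 0 1 (by decide) (by decide)
    rw [e0] at c0
    rw [e1] at c1
    rw [e2] at c2
    refine (measure_mono hsub).trans ((measure_union_le _ _).trans ?_)
    refine add_le_add le_rfl ?_
    refine (measure_union_le _ _).trans ?_
    refine (add_le_add c0 ((measure_union_le _ _).trans (add_le_add c1 c2))).trans ?_
    apply le_of_eq
    ring
  rw [vol_Oct (by norm_num : (0 : ℝ) < 13), vol_Oct (by norm_num : (0 : ℝ) < 5)] at h13
  rw [vol_Oct (by norm_num : (0 : ℝ) < 12)]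
  have n12 : ENNReal.ofReal ((12 : ℝ) ^ 3) = 1728 := by
    rw [show ((12 : ℝ) ^ 3) = ((1728 : ℕ) : ℝ) by norm_num, ENNReal.ofReal_natCast]; rfl
  have n13 : ENNReal.ofReal ((13 : ℝ) ^ 3) = 2197 := by
    rw [show ((13 : ℝ) ^ 3) = ((2197 : ℕ) : ℝ) by norm_num, ENNReal.ofReal_natCast]; rfl
  have n5 : ENNReal.ofReal ((5 : ℝ) ^ 3) = 125 := by
    rw [show ((5 : ℝ) ^ 3) = ((125 : ℕ) : ℝ) by norm_num, ENNReal.ofReal_natCast]; rfl
  rw [n13, n5] at h13
  rw [n12]
  by_contra hcon
  push Not at hcon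
  have h : (2197 : ℝ≥0∞) * volume (Oct 1) ≤ 2103 * volume (Oct 1) := by
    refine h13.trans ((add_le_add hcon le_rfl).trans (le_of_eq ?_))
    rw [← mul_assoc, ← add_mul]
    norm_num
  have := (ENNReal.mul_le_mul_iff_left hpos.ne' hfin).mp h
  norm_num at this

/-- three-dimensional Euclidean space -/
abbrev Space3 := EuclideanSpace ℝ (Fin 3)

/-- a convex body (compact convex set with nonempty interior) symmetric about the origin -/
def SymmetricBody (C : Set Space3) : Prop :=
  Convex ℝ C ∧ IsCompact C ∧ (interior C).Nonempty ∧ ∀ x ∈ C, -x ∈ C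

/-- surface area: the two-dimensional Hausdorff measure of the boundary -/
noncomputable def surfaceArea (C : Set Space3) : ℝ≥0∞ := (μH[2] : Measure Space3) (frontier C)

/-- the truncated octahedron -/
def C₁ : Set Space3 := {x | |x 0| + |x 1| + |x 2| ≤ 13 ∧ |x 0| ≤ 8 ∧ |x 1| ≤ 8 ∧ |x 2| ≤ 8}

/-- the regular octahedron -/
def C₂ : Set Space3 := {x | |x 0| + |x 1| + |x 2| ≤ 12}

/-- The truncated octahedron `C₁` and the regular octahedron `C₂` are centrally symmetric convex
bodies in three-dimensional Euclidean space, every nonsingular affine image of `C₁` has surface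
area at most that of the same affine image of `C₂`, and `C₁` has strictly larger volume. -/
theorem result :
    SymmetricBody C₁ ∧ SymmetricBody C₂ ∧
      (∀ A : Space3 ≃ᵃ[ℝ] Space3, surfaceArea (A '' C₁) ≤ surfaceArea (A '' C₂)) ∧
      (volume : Measure Space3) C₂ < volume C₁ := by
  refine ⟨⟨convex_TOct, isCompact_TOct, ?_, ?_⟩,
    ⟨convex_Oct 12, isCompact_Oct 12, ?_, ?_⟩, domination, volumes⟩
  · refine ⟨0, interior_maximal ?_ (isOpen_octI 1) (by simp)⟩
    intro x hx
    have hx' : |x 0| + |x 1| + |x 2| < 1 := hx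
    have h0 := abs_nonneg (x 0)
    have h1 := abs_nonneg (x 1)
    have h2 := abs_nonneg (x 2)
    exact ⟨by linarith, by linarith, by linarith, by linarith⟩
  · rintro x ⟨h, h0, h1, h2⟩
    exact ⟨by simpa using h, by simpa using h0, by simpa using h1, by simpa using h2⟩
  · refine ⟨0, interior_maximal ?_ (isOpen_octI 12) (by simp)⟩
    intro x hx
    have hx' : |x 0| + |x 1| + |x 2| < 12 := hx
    exact le_of_lt hx'
  · intro x hx
    have hx' : |x 0| + |x 1| + |x 2| ≤ 12 := hx
    show |(-x) 0| + |(-x) 1| + |(-x) 2| ≤ 12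
    simpa using hx'

end Pool.Agent.Results.MP_8228af_gt.OctahedronComparison
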